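import Pool.Agent.helper69.SN.SpecA

/-!
Row sn:aPBD: bounded perturbation, by compactness.
-/

open scoped Pointwise ContDiff
open MeasureTheory Set Filter Topology

set_option linter.unusedVariables false

namespace Pool.Agent.helper48.SN

open Pool.Agent.helper83.SC Pool.Agent.helper69.SN

theorem quad_entry {m : ℕ} {A : Mat m} (hA : A.PosSemidef) (i j : Fin m) (c : ℝ) :
    0 ≤ A i i + 2 * c * A i j + c ^ 2 * A j j := by
  have h := hA.dotProduct_mulVec_nonneg (Pi.single i 1 + Pi.single j c)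
  have hs : A j i = A i j := by
    have := hA.1.apply i j
    simpa using this
  simp only [star_trivial, Matrix.mulVec_add, Matrix.mulVec_single, add_dotProduct,
    dotProduct_add, single_dotProduct, Pi.smul_apply, Matrix.col_apply,
    MulOpposite.op_one, one_smul, MulOpposite.smul_eq_mul_unop, MulOpposite.unop_op, one_mul] at h
  rw [hs] at h
  linarith [h]

theorem entry_bound {m : ℕ} {A : Mat m} {b : ℝ} (hA : A.PosSemidef)
    (hb : (b • (1 : Mat m) - A).PosSemidef) (i j : Fin m) : |A i j| ≤ b := by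
  by_cases hij : i = j
  · subst hij
    have h1 := hA.diag_nonneg (i := i)
    have h2 := hb.diag_nonneg (i := i)
    simp only [Matrix.sub_apply, Matrix.smul_apply, Matrix.one_apply_eq, smul_eq_mul,
      mul_one] at h2
    rw [abs_of_nonneg h1]
    linarith
  · have h1 := quad_entry hA i j 1
    have h2 := quad_entry hA i j (-1)
    have h3 := quad_entry hb i j 1
    have h4 := quad_entry hb i j (-1)
    simp only [Matrix.sub_apply, Matrix.smul_apply, Matrix.one_apply_eq, smul_eq_mul,
      mul_one, Matrix.one_apply_ne hij, mul_zero] at h3 h4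
    have h5 := hA.diag_nonneg (i := i)
    have h6 := hA.diag_nonneg (i := j)
    rw [abs_le]
    constructor <;> nlinarith

theorem GG_mono {m n : ℕ} {B : Fin n → Mat m} {M : Mat m} {a c : ℝ} (hac : a ≤ c)
    (h : M + a • (1 : Mat m) ∈ GG B) : M + c • (1 : Mat m) ∈ GG B := by
  refine ⟨?_, fun t ht => ?_⟩
  · have h1 : M + c • (1 : Mat m) = (M + a • (1 : Mat m)) + (c - a) • (1 : Mat m) := by
      rw [sub_smul]; abel
    rw [h1]
    exact h.1.add (Matrix.isSymm_one.smul _)
  · have h1 : M + c • (1 : Mat m) + t • (1 : Mat m)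
        = (M + a • (1 : Mat m)) + (t + (c - a)) • (1 : Mat m) := by
      rw [add_smul, sub_smul]; abel
    rw [h1]
    refine le_trans ?_ (h.2 (t + (c - a)) (by linarith))
    exact pow_le_pow_left₀ ht (by linarith) _

theorem closed_bad {Y Z X : Type} [TopologicalSpace Y] [TopologicalSpace Z] [TopologicalSpace X]
    (φ : Y → Z → ℝ) (hφ : Continuous fun p : Y × Z => φ p.1 p.2) {f : X → Y} {g : X → Z}
    (hf : Continuous f) (hg : Continuous g) : IsClosed {q | φ (f q) (g q) ≤ 0} := by
  have h : Continuous fun q => φ (f q) (g q) := hφ.comp (hf.prodMk hg)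
  exact isClosed_le h continuous_const

theorem closed_gg {Y Z X : Type} [TopologicalSpace Y] [TopologicalSpace Z] [TopologicalSpace X]
    (φ : Y → Set Z) (hφ : IsClosed {p : Y × Z | p.2 ∈ φ p.1}) {f : X → Y} {g : X → Z}
    (hf : Continuous f) (hg : Continuous g) : IsClosed {q | g q ∈ φ (f q)} :=
  hφ.preimage (hf.prodMk hg)

/-- The parameter space. -/
abbrev XX (m n : ℕ) : Type := (Fin n → Mat m) × (Fin n → Mat m) × Mat m × ℝ

theorem aPBD_of (hCNT : aCNT_stmt) (hHOM : aHOM_stmt) (hEQV : aEQV_stmt) (hPSD : aPSD_stmt)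
    (hCL2 : aCL2_stmt) : aPBD_stmt := by
  intro m n b δ hδ
  by_contra hcon
  push Not at hcon
  let K : Set (XX m n) := (Set.pi univ fun _ => Set.pi univ fun _ => Set.pi univ fun _ => Icc (-b) b) ×ˢ
    (Set.pi univ fun _ => Set.pi univ fun _ => Set.pi univ fun _ => Icc (-b) b) ×ˢ
    (Set.pi univ fun _ => Set.pi univ fun _ => Icc (-b) b) ×ˢ (Icc (0 : ℝ) 1)
  have hM : IsCompact (Set.pi univ fun _ : Fin m => Set.pi univ fun _ : Fin m => Icc (-b) b) :=
    isCompact_univ_pi fun _ => isCompact_univ_pi fun _ => isCompact_Icc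
  have hK : IsCompact K :=
    (isCompact_univ_pi fun _ => hM).prod ((isCompact_univ_pi fun _ => hM).prod
      (hM.prod isCompact_Icc))
  let C : ℕ → Set (XX m n) := fun k => K ∩ ({q | ∀ l i j, |q.1 l i j - q.2.1 l i j| ≤ 1 / ((k : ℝ) + 1)} ∩
    ({q | q.2.2.1 + (1 / ((k : ℝ) + 1)) • (1 : Mat m) ∈ GG q.1} ∩
    {q | Ph (sc (fun _ => q.2.2.2) q.2.1)
      (q.2.2.2 • (q.2.2.1 + δ • (1 : Mat m)) + (1 - q.2.2.2) • (1 : Mat m)) ≤ 0}))
  have hpos : ∀ k : ℕ, 0 < 1 / ((k : ℝ) + 1) := fun k => by positivity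
  have hle : ∀ k : ℕ, 1 / (((k + 1 : ℕ) : ℝ) + 1) ≤ 1 / ((k : ℝ) + 1) := fun k => by
    apply one_div_le_one_div_of_le (by positivity)
    push_cast
    linarith
  have hsub : ∀ k, C (k + 1) ⊆ C k := by
    rintro k q ⟨h1, h2, h3, h4⟩
    exact ⟨h1, fun l i j => (h2 l i j).trans (hle k), GG_mono (hle k) h3, h4⟩
  have hcl : ∀ k, IsClosed (C k) := by
    intro k
    refine hK.isClosed.inter (IsClosed.inter ?_ (IsClosed.inter ?_ ?_))
    · have : {q : XX m n | ∀ l i j, |q.1 l i j - q.2.1 l i j| ≤ 1 / ((k : ℝ) + 1)}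
          = ⋂ l, ⋂ i, ⋂ j, {q : XX m n | |q.1 l i j - q.2.1 l i j| ≤ 1 / ((k : ℝ) + 1)} := by
        ext q; simp
      rw [this]
      refine isClosed_iInter fun l => isClosed_iInter fun i => isClosed_iInter fun j => ?_
      refine isClosed_le ?_ continuous_const
      have e1 : Continuous fun q : XX m n => q.1 l i j :=
        ((continuous_apply j).comp ((continuous_apply i).comp
          ((continuous_apply l).comp continuous_fst)))
      have e2 : Continuous fun q : XX m n => q.2.1 l i j :=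
        ((continuous_apply j).comp ((continuous_apply i).comp
          ((continuous_apply l).comp (continuous_fst.comp continuous_snd))))
      exact (e1.sub e2).abs
    · have hc : Continuous fun q : XX m n => q.2.2.1 + (1 / ((k : ℝ) + 1)) • (1 : Mat m) := by
        fun_prop
      exact closed_gg GG (hCL2 (m := m) (n := n)) continuous_fst hc
    · have hc1 : Continuous fun q : XX m n => (sc (fun _ => q.2.2.2) q.2.1 : Fin n → Mat m) := by
        unfold sc
        fun_prop
      have hc2 : Continuous fun q : XX m n =>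
          q.2.2.2 • (q.2.2.1 + δ • (1 : Mat m)) + (1 - q.2.2.2) • (1 : Mat m) := by
        fun_prop
      exact closed_bad Ph (hCNT (m := m) (n := n) 0).2 hc1 hc2
  have hne : ∀ k, (C k).Nonempty := by
    intro k
    obtain ⟨B, B', M, hB, hB', hLB, hLB', hMs, hMb, hBB, hMG, hMG'⟩ := hcon _ (hpos k)
    have hsym : (M + δ • (1 : Mat m)).IsSymm := hMs.add (Matrix.isSymm_one.smul _)
    have h1 := (not_congr (hEQV B' hB' (M + δ • (1 : Mat m)) 1 hsym Matrix.PosDef.one)).mp hMG'
    push Not at h1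
    obtain ⟨t, ht, htP⟩ := h1
    refine ⟨(B, B', M, 1 / (1 + t)), ⟨⟨?_, ?_, ?_, ?_⟩, ?_, ?_, ?_⟩⟩
    · intro l _ i _ j _
      exact abs_le.mp (entry_bound (hB l) (hLB l) i j)
    · intro l _ i _ j _
      exact abs_le.mp (entry_bound (hB' l) (hLB' l) i j)
    · intro i _ j _
      exact abs_le.mp (hMb i j)
    · constructor
      · show (0 : ℝ) ≤ 1 / (1 + t)
        positivity
      · show 1 / (1 + t) ≤ (1 : ℝ)
        rw [div_le_one (by linarith)]
        linarith
    · exact hBB
    · exact hMG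
    · show Ph (sc (fun _ => 1 / (1 + t)) B')
        ((1 / (1 + t)) • (M + δ • (1 : Mat m)) + (1 - 1 / (1 + t)) • (1 : Mat m)) ≤ 0
      have h2 : (1 / (1 + t)) • (M + δ • (1 : Mat m)) + (1 - 1 / (1 + t)) • (1 : Mat m)
          = (1 / (1 + t)) • (M + δ • (1 : Mat m) + t • (1 : Mat m)) := by
        rw [smul_add (1 / (1 + t)) (M + δ • (1 : Mat m)), smul_smul]
        congr 2
        field_simp
        ring
      rw [h2, (hHOM B' 0 _ _ 0).1]
      have h3 : (0 : ℝ) ≤ (1 / (1 + t)) ^ m := by positivity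
      nlinarith
  obtain ⟨q, hq⟩ := IsCompact.nonempty_iInter_of_sequence_nonempty_isCompact_isClosed C hsub hne
    (hK.of_isClosed_subset (hcl 0) (fun q hq => hq.1)) hcl
  rw [mem_iInter] at hq
  obtain ⟨B, B', M, p⟩ := q
  have hlim : Tendsto (fun k : ℕ => 1 / ((k : ℝ) + 1)) atTop (𝓝 0) :=
    tendsto_one_div_add_atTop_nhds_zero_nat
  have hBB : B = B' := by
    funext l i j
    have h1 : |B l i j - B' l i j| ≤ 0 :=
      ge_of_tendsto' hlim fun k => (hq k).2.1 l i j
    have h2 := abs_nonpos_iff.mp h1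
    linarith
  subst hBB
  have hMG : M ∈ GG B := by
    have h1 : Tendsto (fun k : ℕ => ((B, M + (1 / ((k : ℝ) + 1)) • (1 : Mat m)) :
        (Fin n → Mat m) × Mat m)) atTop (𝓝 (B, M)) := by
      refine tendsto_const_nhds.prodMk_nhds ?_
      have h2 : Tendsto (fun k : ℕ => M + (1 / ((k : ℝ) + 1)) • (1 : Mat m)) atTop
          (𝓝 (M + (0 : ℝ) • (1 : Mat m))) :=
        tendsto_const_nhds.add (hlim.smul_const _)
      simpa using h2
    exact (hCL2 (m := m) (n := n)).mem_of_tendsto h1
      (Eventually.of_forall fun k => (hq k).2.2.1)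
  have hp : p ∈ Icc (0 : ℝ) 1 := (hq 0).1.2.2.2
  have hbad : Ph (sc (fun _ => p) B)
      (p • (M + δ • (1 : Mat m)) + (1 - p) • (1 : Mat m)) ≤ 0 := (hq 0).2.2.2
  rcases hp.1.eq_or_lt with h0 | h0
  · subst h0
    have h1 : (sc (fun _ => (0 : ℝ)) B : Fin n → Mat m) = fun _ => 0 := by
      funext i
      simp [sc]
    rw [h1] at hbad
    have h2 := (hPSD (fun _ : Fin n => (0 : Mat m)) (fun _ => Matrix.PosSemidef.zero) 0
      Matrix.PosSemidef.zero).2 1 zero_le_one
    simp only [one_pow, zero_add, one_smul] at h2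
    simp only [zero_smul, zero_add, sub_zero, one_smul] at hbad
    linarith
  · have hτ : 0 < (p * δ + (1 - p)) / p := by
      have : 0 < p * δ := mul_pos h0 hδ
      have := hp.2
      apply div_pos _ h0
      linarith
    have h2 : p • (M + δ • (1 : Mat m)) + (1 - p) • (1 : Mat m)
        = p • (M + ((p * δ + (1 - p)) / p) • (1 : Mat m)) := by
      rw [smul_add, smul_add, smul_smul, smul_smul, add_assoc, ← add_smul]
      congr 2
      field_simp
    rw [h2, (hHOM B 0 _ _ 0).1] at hbad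
    have h3 := hMG.2 _ hτ.le
    have h4 : 0 < p ^ m := pow_pos h0 _
    have h5 : 0 < ((p * δ + (1 - p)) / p) ^ m := pow_pos hτ _
    nlinarith [mul_pos h4 h5]

end Pool.Agent.helper48.SN
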